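import Pool.Agent.Lib.MP_3493b8_lc.O.Final
import Pool.Agent.Lib.MP_3493b8_lc.O.CompOut

/-! MP_3493b8_lc (Tutte polynomial on `(x-1)(y-1) = 2`, `y < -1`): for every fixed rational `y < -1`
one randomised algorithm approximates `T(G; x, y)` within `1/N` with probability at least `3/4`; its
running time on the multigraph `G` with `n` vertices, `m` edges and `τ` vertices of odd degree is at
most `(n+m+N+2)^C * C^τ`. -/

set_option autoImplicit false

open scoped ENNReal

namespace Pool.Agent.Results.MP_3493b8_lc.FewOddVertices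

open Pool.Agent.Lib.H2 Pool.Agent.Lib.PTC Pool.Agent.Lib.PRam

/-- Fixed `y < -1` and `x = 1 + 2/(y-1)`: an approximation algorithm for `T(G; x, y)` whose running
time is polynomial for graphs with `O(log n)` vertices of odd degree. -/
theorem result (y : ℚ) (hy : y < -1) : ∃ (P : List Instr) (K C : ℕ), 0 < K ∧
    ∀ (G : MGraph) (N : ℕ), 1 ≤ N →
      3 / 4 ≤ probThat P (G.code N) (fun z => Close (1 / N)
        ((z : ℝ) / (K : ℝ) ^ (G.n + G.m + N + 2)) (G.tutte (1 + 2 / ((y : ℝ) - 1)) y)) ∧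
      TimeLe P (G.code N) (((G.n : ℝ) + G.m + N + 2) ^ C * (C : ℝ) ^ G.oddDeg) := by
  obtain ⟨s, b, hb, hs, h⟩ : ∃ s b : ℕ, 0 < b ∧ b < s ∧ (y : ℝ) = -((s : ℝ) / b) := by
    refine ⟨y.num.natAbs, y.den, y.pos, ?_, ?_⟩
    · have h1 : (y.num : ℚ) / y.den = y := Rat.num_div_den y
      have h2 : (0 : ℚ) < y.den := by exact_mod_cast y.pos
      have h3 : (y.num : ℚ) < -y.den := by
        rw [← h1] at hy
        rw [div_lt_iff₀ h2] at hy
        linarith
      have h4 : y.num < -(y.den : ℤ) := by exact_mod_cast h3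
      omega
    · have h1 : (y.num : ℚ) / y.den = y := Rat.num_div_den y
      have h5 : y.num < 0 := by
        rw [Rat.num_neg]
        linarith
      have h6 : ((y.num.natAbs : ℕ) : ℤ) = -y.num := by omega
      have h7 : ((y.num.natAbs : ℕ) : ℝ) = -(y.num : ℝ) := by
        rw [← Int.cast_natCast, h6, Int.cast_neg]
      rw [h7, neg_div, neg_neg]
      exact_mod_cast h1.symm
  obtain ⟨P, C, hP⟩ := MGraph.main_of_compB s b hb hs (comp_outB s b) (comp_bitsB (s + b))
    (tm_bitsB (s + b)) y h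
  refine ⟨P, 4 * (s + b) ^ 2, C, by positivity, fun G N hN => ?_⟩
  exact hP G N hN

end Pool.Agent.Results.MP_3493b8_lc.FewOddVertices
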